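import Pool.Agent.Helper93.PL.St

/-!
# Module Rh3 of project PL: sum over sets of a product over pairs
-/

set_option autoImplicit false

open Finset

namespace Pool.Agent.Helper98.PL

private lemma prod_sub_le {ι : Type} (s : Finset ι) (f : ι → ℝ) (hf : ∀ i ∈ s, 1 ≤ f i) (K : ℕ)
    (hK : #s ≤ K) : ∏ i ∈ s, f i - 1 ≤ ∑ i ∈ s, (f i ^ K - 1) := by
  rcases s.eq_empty_or_nonempty with h | h
  · rw [h]; simp
  · obtain ⟨j, hj, hmax⟩ := s.exists_max_image f h
    have h1 : ∏ i ∈ s, f i ≤ f j ^ #s := by
      calc ∏ i ∈ s, f i ≤ ∏ _i ∈ s, f j :=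
            prod_le_prod (fun i hi => zero_le_one.trans (hf i hi)) (fun i hi => hmax i hi)
        _ = f j ^ #s := prod_const _
    have h2 : f j ^ #s ≤ f j ^ K := pow_le_pow_right₀ (hf j hj) hK
    have h3 : f j ^ K - 1 ≤ ∑ i ∈ s, (f i ^ K - 1) :=
      single_le_sum (f := fun i => f i ^ K - 1) (fun i hi => sub_nonneg.2 (one_le_pow₀ (hf i hi))) hj
    linarith

private lemma cnt (S : Finset ℕ) (k : ℕ) (m i : ℕ) (hmi : i ≠ m) :
    #((S.powersetCard k).filter (fun T => m ∈ T ∧ i ∈ T)) ≤ #S ^ (k - 2) := by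
  calc #((S.powersetCard k).filter (fun T => m ∈ T ∧ i ∈ T)) ≤ #(S.powersetCard (k - 2)) := by
        refine card_le_card_of_injOn (fun T => (T.erase m).erase i) (fun T hT => ?_) ?_
        · have hT' := mem_filter.1 hT
          obtain ⟨h1, h2, h3⟩ := hT'
          obtain ⟨h4, h5⟩ := mem_powersetCard.1 h1
          refine mem_coe.2 (mem_powersetCard.2 ⟨?_, ?_⟩)
          · exact (erase_subset _ _).trans ((erase_subset _ _).trans h4)
          · rw [card_erase_of_mem (mem_erase.2 ⟨hmi, h3⟩), card_erase_of_mem h2, h5]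
            omega
        · intro T hT T' hT' he
          have a := mem_filter.1 (mem_coe.1 hT)
          have b := mem_filter.1 (mem_coe.1 hT')
          have e1 : T.erase m = T'.erase m := by
            rw [← insert_erase (mem_erase.2 ⟨hmi, a.2.2⟩), ← insert_erase (mem_erase.2 ⟨hmi, b.2.2⟩)]
            exact congrArg (insert i) he
          rw [← insert_erase a.2.1, ← insert_erase b.2.1, e1]
    _ = (#S).choose (k - 2) := card_powersetCard _ _
    _ ≤ #S ^ (k - 2) := Nat.choose_le_pow _ _

theorem hRh3 : Pool.Agent.Helper93.PL.StRh3 := by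
  intro k M r hr
  have hg : ∀ h, 0 ≤ r h ^ (k * k) - 1 := fun h => sub_nonneg.2 (one_le_pow₀ (hr h))
  rcases Nat.lt_or_ge k 2 with hk | hk
  · have h0 : ∑ T ∈ (Icc 1 M).powersetCard k,
        ((∏ m ∈ T, ∏ i ∈ T.filter (fun i => i < m), r (m - i)) - 1) = 0 := by
      refine sum_eq_zero fun T hT => ?_
      have hc := (mem_powersetCard.1 hT).2
      have : ∏ m ∈ T, ∏ i ∈ T.filter (fun i => i < m), r (m - i) = 1 := by
        refine prod_eq_one fun m hm => ?_
        have he : T.filter (fun i => i < m) = ∅ := by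
          refine filter_eq_empty_iff.2 fun i hi hlt => ?_
          have := card_le_one.1 (by omega : #T ≤ 1) i hi m hm
          omega
        rw [he, prod_empty]
      rw [this, sub_self]
    rw [h0]
    exact mul_nonneg (by positivity) (sum_nonneg fun h _ => hg h)
  · set g : ℕ → ℝ := fun h => r h ^ (k * k) - 1 with hgd
    have h1 : ∀ T ∈ (Icc 1 M).powersetCard k,
        (∏ m ∈ T, ∏ i ∈ T.filter (fun i => i < m), r (m - i)) - 1
          ≤ ∑ m ∈ Icc 1 M, ∑ i ∈ (Icc 1 M).filter (fun i => i < m),
            if m ∈ T ∧ i ∈ T then g (m - i) else 0 := by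
      intro T hT
      obtain ⟨hTS, hc⟩ := mem_powersetCard.1 hT
      have e1 : ∏ m ∈ T, ∏ i ∈ T.filter (fun i => i < m), r (m - i)
          = ∏ x ∈ T.sigma (fun m => T.filter (fun i => i < m)), r (x.1 - x.2) := by
        rw [prod_sigma]
      have e2 : #(T.sigma (fun m => T.filter (fun i => i < m))) ≤ k * k := by
        rw [card_sigma]
        calc ∑ m ∈ T, #(T.filter (fun i => i < m)) ≤ ∑ _m ∈ T, k :=
              sum_le_sum fun m _ => (card_filter_le _ _).trans hc.le
          _ = k * k := by rw [sum_const, hc, smul_eq_mul]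
      have e3 := prod_sub_le (T.sigma (fun m => T.filter (fun i => i < m))) (fun x => r (x.1 - x.2))
        (fun x _ => hr _) (k * k) e2
      rw [← e1] at e3
      refine e3.trans (le_of_eq ?_)
      rw [sum_sigma]
      rw [← sum_subset hTS (fun m _ hm => ?_)]
      · refine sum_congr rfl fun m hm => ?_
        rw [← sum_subset (filter_subset_filter _ hTS) (fun i hi hi' => ?_)]
        · refine sum_congr rfl fun i hi => ?_
          rw [if_pos ⟨hm, (mem_filter.1 hi).1⟩]
        · rw [if_neg]
          rintro ⟨-, h⟩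
          exact hi' (mem_filter.2 ⟨h, (mem_filter.1 hi).2⟩)
      · refine sum_eq_zero fun i _ => ?_
        rw [if_neg]
        rintro ⟨h, -⟩
        exact hm h
    calc ∑ T ∈ (Icc 1 M).powersetCard k,
          ((∏ m ∈ T, ∏ i ∈ T.filter (fun i => i < m), r (m - i)) - 1)
        ≤ ∑ T ∈ (Icc 1 M).powersetCard k, ∑ m ∈ Icc 1 M, ∑ i ∈ (Icc 1 M).filter (fun i => i < m),
            (if m ∈ T ∧ i ∈ T then g (m - i) else 0) := sum_le_sum h1
      _ = ∑ m ∈ Icc 1 M, ∑ i ∈ (Icc 1 M).filter (fun i => i < m), ∑ T ∈ (Icc 1 M).powersetCard k,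
            (if m ∈ T ∧ i ∈ T then g (m - i) else 0) := by
          rw [sum_comm]
          exact sum_congr rfl fun m _ => sum_comm
      _ ≤ ∑ m ∈ Icc 1 M, ∑ i ∈ (Icc 1 M).filter (fun i => i < m), (M : ℝ) ^ (k - 2) * g (m - i) := by
          refine sum_le_sum fun m _ => sum_le_sum fun i hi => ?_
          have hlt := (mem_filter.1 hi).2
          rw [← sum_filter, sum_const, nsmul_eq_mul]
          refine mul_le_mul_of_nonneg_right ?_ (hg _)
          have := cnt (Icc 1 M) k m i (by omega)
          rw [Nat.card_Icc, Nat.add_sub_cancel] at this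
          exact_mod_cast this
      _ ≤ ∑ _m ∈ Icc 1 M, (M : ℝ) ^ (k - 2) * ∑ h ∈ Icc 1 M, g h := by
          refine sum_le_sum fun m hm => ?_
          rw [← mul_sum]
          refine mul_le_mul_of_nonneg_left ?_ (by positivity)
          have hm' := mem_Icc.1 hm
          rw [← sum_image (s := (Icc 1 M).filter (fun i => i < m)) (g := fun i => m - i) (f := g)]
          · refine sum_le_sum_of_subset_of_nonneg ?_ (fun h _ _ => hg h)
            intro h hh
            obtain ⟨i, hi, rfl⟩ := mem_image.1 hh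
            have h2 := mem_filter.1 hi
            have h3 := mem_Icc.1 h2.1
            exact mem_Icc.2 ⟨by omega, by omega⟩
          · intro i hi j hj hij
            have h2 := (mem_filter.1 (mem_coe.1 hi)).2
            have h3 := (mem_filter.1 (mem_coe.1 hj)).2
            have h4 : m - i = m - j := hij
            omega
      _ = (M : ℝ) ^ (k - 1) * ∑ h ∈ Icc 1 M, (r h ^ (k * k) - 1) := by
          rw [sum_const, Nat.card_Icc, Nat.add_sub_cancel, nsmul_eq_mul]
          have : k - 1 = (k - 2) + 1 := by omega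
          rw [this, pow_succ]
          ring

end Pool.Agent.Helper98.PL
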